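import Pool.Agent.LKT.Stmts

/-!
# LKT, row MIR: the point reflection changes the sign of all brackets
-/

set_option autoImplicit false

namespace Pool.Agent.LKT.H70

open Pool.Agent.LCK Pool.Agent.LKT

theorem mir_hom (x : Fin 8 → E3) (k : Fin 8) (j : Fin 4) :
    hom (fun k => -x k) k j = (![1, -1, -1, -1] : Fin 4 → ℝ) j * hom x k j := by
  fin_cases j <;> simp [hom]

theorem mir : MirStmt := by
  refine ⟨LinearIsometryEquiv.neg ℝ, ?_⟩
  intro x a b c d
  have h0 : (fun k => (LinearIsometryEquiv.neg ℝ : E3 ≃ₗᵢ[ℝ] E3) (x k)) = fun k => -x k := by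
    funext k
    rfl
  rw [h0]
  unfold D d4
  have h1 : (Matrix.of ![hom (fun k => -x k) a, hom (fun k => -x k) b, hom (fun k => -x k) c,
      hom (fun k => -x k) d]) =
      Matrix.of fun i j => (![1, -1, -1, -1] : Fin 4 → ℝ) j *
        (Matrix.of ![hom x a, hom x b, hom x c, hom x d]) i j := by
    ext i j
    rw [Matrix.of_apply, Matrix.of_apply, Matrix.of_apply]
    fin_cases i
    · exact mir_hom x a j
    · exact mir_hom x b j
    · exact mir_hom x c j
    · exact mir_hom x d j
  rw [h1, Matrix.det_mul_row]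
  simp [Fin.prod_univ_four]

end Pool.Agent.LKT.H70

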